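import Pool.Agent.helper36.PT.Spec
import Pool.Agent.helper8.MK.PM

/-!
# Mertens' theorem for continuous functions (row pt:MPS)
-/

set_option autoImplicit false

namespace Pool.Agent.PT

open Finset Filter Topology

/-- the sum over the primes -/
noncomputable def MPS_S (s₁ s₂ : ℝ) (g : ℝ → ℝ) (X : ℝ) : ℝ :=
  ∑ l ∈ (Ioc ⌊X ^ s₁⌋₊ ⌊X ^ s₂⌋₊).filter Nat.Prime, g (Real.log l / Real.log X) / (l : ℝ)

theorem MPS_PP {w z : ℝ} (hw : 0 ≤ w) :
    Pool.Agent.RLS.PP w z = (Ioc ⌊w⌋₊ ⌊z⌋₊).filter Nat.Prime := by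
  ext p
  rw [Pool.Agent.RLS.PP, mem_filter, mem_filter, mem_range, mem_Ioc]
  have e1 : w < (p : ℝ) ↔ ⌊w⌋₊ < p := (Nat.floor_lt hw).symm
  rw [e1]
  constructor
  · rintro ⟨a, b, d⟩
    exact ⟨⟨d, by omega⟩, b⟩
  · rintro ⟨⟨a, b⟩, d⟩
    exact ⟨by omega, d, a⟩

theorem MPS_range {s₁ s₂ X : ℝ} (hX : 1 < X) {l : ℕ}
    (hl : l ∈ (Ioc ⌊X ^ s₁⌋₊ ⌊X ^ s₂⌋₊).filter Nat.Prime) :
    Real.log l / Real.log X ∈ Set.Icc s₁ s₂ := by
  have hX0 : 0 < X := by linarith
  have hlX : 0 < Real.log X := Real.log_pos hX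
  obtain ⟨h1, h2⟩ := mem_filter.1 hl
  obtain ⟨h3, h4⟩ := mem_Ioc.1 h1
  have hl0 : (0 : ℝ) < l := by exact_mod_cast h2.pos
  have h5 : X ^ s₁ < (l : ℝ) := (Nat.floor_lt (Real.rpow_nonneg hX0.le _)).1 h3
  have h6 : (l : ℝ) ≤ X ^ s₂ := (Nat.le_floor_iff (Real.rpow_nonneg hX0.le _)).1 h4
  constructor
  · rw [le_div_iff₀ hlX, ← Real.log_rpow hX0]
    exact Real.log_le_log (Real.rpow_pos_of_pos hX0 _) h5.le
  · rw [div_le_iff₀ hlX, ← Real.log_rpow hX0]
    exact Real.log_le_log hl0 h6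

/-- substitution in the integral -/
theorem MPS_subst {s₁ s₂ : ℝ} (h1 : 0 < s₁) (h12 : s₁ ≤ s₂) {g : ℝ → ℝ} (hg : Continuous g) :
    ∫ σ in (0 : ℝ)..Real.log (s₂ / s₁), g (Real.exp σ * s₁) = ∫ t in s₁..s₂, g t / t := by
  have h2 : 0 < s₂ := by linarith
  have hpos : ∀ σ : ℝ, 0 < Real.exp σ * s₁ := fun σ => mul_pos (Real.exp_pos σ) h1
  have h3 := intervalIntegral.integral_comp_mul_deriv'' (a := 0) (b := Real.log (s₂ / s₁))
    (f := fun σ => Real.exp σ * s₁) (f' := fun σ => Real.exp σ * s₁) (g := fun t => g t / t)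
    (by fun_prop) (fun x _ => ((Real.hasDerivAt_exp x).mul_const s₁).hasDerivWithinAt)
    (by fun_prop) (by
      refine ContinuousOn.div hg.continuousOn continuousOn_id ?_
      rintro _ ⟨σ, _, rfl⟩
      exact (hpos σ).ne')
  have e1 : (fun x => ((fun t => g t / t) ∘ fun σ => Real.exp σ * s₁) x * (Real.exp x * s₁)) =
      fun σ => g (Real.exp σ * s₁) := by
    funext σ
    show g (Real.exp σ * s₁) / (Real.exp σ * s₁) * (Real.exp σ * s₁) = _
    rw [div_mul_cancel₀ _ (hpos σ).ne']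
  rw [e1] at h3
  rw [h3]
  have e2 : Real.exp 0 * s₁ = s₁ := by rw [Real.exp_zero, one_mul]
  have e3 : Real.exp (Real.log (s₂ / s₁)) * s₁ = s₂ := by
    rw [Real.exp_log (by positivity), div_mul_cancel₀ _ h1.ne']
  show ∫ u in (Real.exp 0 * s₁)..(Real.exp (Real.log (s₂ / s₁)) * s₁), g u / u = _
  rw [e2, e3]

/-- the case of a nonnegative antitone function -/
theorem MPS_anti {s₁ s₂ : ℝ} (h1 : 0 < s₁) (h12 : s₁ ≤ s₂) {g : ℝ → ℝ} (hg : Continuous g)
    (ha : AntitoneOn g (Set.Icc s₁ s₂)) (h0 : ∀ t ∈ Set.Icc s₁ s₂, 0 ≤ g t) :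
    Tendsto (MPS_S s₁ s₂ g) atTop (𝓝 (∫ t in s₁..s₂, g t / t)) := by
  obtain ⟨C, hC, hPM⟩ := Pool.Agent.MK.PM
  have hlog : Tendsto (fun X : ℝ => C / (s₁ * Real.log X) * g s₁) atTop (𝓝 0) := by
    have h2 : Tendsto (fun X : ℝ => s₁ * Real.log X) atTop atTop :=
      Real.tendsto_log_atTop.const_mul_atTop h1
    have h3 : Tendsto (fun X : ℝ => C / (s₁ * Real.log X)) atTop (𝓝 0) :=
      h2.const_div_atTop C
    have h4 := h3.mul_const (g s₁)
    rwa [zero_mul] at h4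
  have hkey : ∀ᶠ X : ℝ in atTop, |MPS_S s₁ s₂ g X - ∫ t in s₁..s₂, g t / t| ≤
      C / (s₁ * Real.log X) * g s₁ := by
    have hX2 : ∀ᶠ X : ℝ in atTop, 2 ≤ X ^ s₁ :=
      (tendsto_rpow_atTop h1).eventually_ge_atTop 2
    filter_upwards [hX2, eventually_gt_atTop (1 : ℝ)] with X hX hX1
    have hX0 : 0 < X := by linarith
    have hlX : 0 < Real.log X := Real.log_pos hX1
    have hwz : X ^ s₁ ≤ X ^ s₂ := Real.rpow_le_rpow_of_exponent_le hX1.le h12
    have lw : Real.log (X ^ s₁) = s₁ * Real.log X := Real.log_rpow hX0 _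
    have lz : Real.log (X ^ s₂) = s₂ * Real.log X := Real.log_rpow hX0 _
    have hm : ∀ u ∈ Set.Icc (Real.log (X ^ s₁)) (Real.log (X ^ s₂)),
        u / Real.log X ∈ Set.Icc s₁ s₂ := by
      rintro u ⟨hu1, hu2⟩
      rw [lw] at hu1
      rw [lz] at hu2
      exact ⟨by rwa [le_div_iff₀ hlX], by rwa [div_le_iff₀ hlX]⟩
    have h5 := hPM (X ^ s₁) (X ^ s₂) hX hwz (fun u => g (u / Real.log X))
      (fun u hu => h0 _ (hm u hu)) (fun u hu v hv huv => ha (hm u hu) (hm v hv)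
        (div_le_div_of_nonneg_right huv hlX.le))
    have e1 : ∑ p ∈ Pool.Agent.RLS.PP (X ^ s₁) (X ^ s₂),
        1 / (p : ℝ) * g (Real.log (p : ℝ) / Real.log X) = MPS_S s₁ s₂ g X := by
      rw [MPS_PP (by positivity), MPS_S]
      refine sum_congr rfl fun l _ => ?_
      ring
    have e2 : ∫ σ in (0 : ℝ)..Real.log (Real.log (X ^ s₂) / Real.log (X ^ s₁)),
        g (Real.exp σ * Real.log (X ^ s₁) / Real.log X) = ∫ t in s₁..s₂, g t / t := by
      rw [← MPS_subst h1 h12 hg, lw, lz]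
      have e3 : s₂ * Real.log X / (s₁ * Real.log X) = s₂ / s₁ := by
        field_simp
      rw [e3]
      refine intervalIntegral.integral_congr fun σ _ => ?_
      show g (Real.exp σ * (s₁ * Real.log X) / Real.log X) = g (Real.exp σ * s₁)
      congr 1
      field_simp
    have e4 : g (Real.log (X ^ s₁) / Real.log X) = g s₁ := by
      rw [lw, mul_div_cancel_right₀ _ hlX.ne']
    simp only [e1, e2, e4] at h5
    rw [lw] at h5
    rw [abs_le]
    constructor
    · linarith [h5.1]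
    · linarith [h5.2]
  rw [tendsto_iff_norm_sub_tendsto_zero]
  refine squeeze_zero' (Eventually.of_forall fun _ => norm_nonneg _) ?_ hlog
  filter_upwards [hkey] with X hX
  rw [Real.norm_eq_abs]
  exact hX

theorem MPS_int {s₁ s₂ : ℝ} (h1 : 0 < s₁) (h12 : s₁ ≤ s₂) {g : ℝ → ℝ}
    (hg : ContinuousOn g (Set.Icc s₁ s₂)) :
    IntervalIntegrable (fun t => g t / t) MeasureTheory.volume s₁ s₂ := by
  apply ContinuousOn.intervalIntegrable
  rw [Set.uIcc_of_le h12]
  exact hg.div continuousOn_id fun t ht => by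
    have := ht.1
    exact (lt_of_lt_of_le h1 this).ne'

theorem MPS_sub {s₁ s₂ : ℝ} (g h : ℝ → ℝ) (X : ℝ) :
    MPS_S s₁ s₂ (fun t => g t - h t) X = MPS_S s₁ s₂ g X - MPS_S s₁ s₂ h X := by
  unfold MPS_S
  rw [← sum_sub_distrib]
  refine sum_congr rfl fun l _ => ?_
  rw [sub_div]

/-- the case of a polynomial -/
theorem MPS_poly {s₁ s₂ : ℝ} (h1 : 0 < s₁) (h12 : s₁ ≤ s₂) (p : Polynomial ℝ) :
    Tendsto (MPS_S s₁ s₂ (fun t => p.eval t)) atTop (𝓝 (∫ t in s₁..s₂, p.eval t / t)) := by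
  obtain ⟨K, hK⟩ := (isCompact_Icc (a := s₁) (b := s₂)).exists_bound_of_continuousOn
    (f := fun t => p.derivative.eval t) p.derivative.continuous.continuousOn
  have hK0 : 0 ≤ K := (norm_nonneg _).trans (hK s₁ ⟨le_rfl, h12⟩)
  obtain ⟨c, hc⟩ : ∃ c : ℝ, c = max (K * s₂) (K * s₂ - p.eval s₂) := ⟨_, rfl⟩
  have hc1 : K * s₂ ≤ c := by rw [hc]; exact le_max_left _ _
  have hc2 : K * s₂ - p.eval s₂ ≤ c := by rw [hc]; exact le_max_right _ _
  have hcont1 : Continuous fun t : ℝ => p.eval t - K * t + c := by fun_prop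
  have hcont2 : Continuous fun t : ℝ => c - K * t := by fun_prop
  have ha1 : AntitoneOn (fun t : ℝ => p.eval t - K * t + c) (Set.Icc s₁ s₂) := by
    refine antitoneOn_of_deriv_nonpos (convex_Icc _ _) hcont1.continuousOn
      (fun x _ => ?_) (fun x hx => ?_)
    · exact (((p.differentiable x).sub ((differentiable_id x).const_mul K)).add_const c
        ).differentiableWithinAt
    · have hd : HasDerivAt (fun t : ℝ => p.eval t - K * t + c) (p.derivative.eval x - K) x := by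
        have h3 := ((p.hasDerivAt x).sub ((hasDerivAt_id x).const_mul K)).add_const c
        rw [mul_one] at h3
        exact h3
      rw [hd.deriv]
      rw [interior_Icc] at hx
      have h4 := hK x ⟨hx.1.le, hx.2.le⟩
      rw [Real.norm_eq_abs] at h4
      linarith [(abs_le.1 h4).2]
  have ha2 : AntitoneOn (fun t : ℝ => c - K * t) (Set.Icc s₁ s₂) := by
    intro x _ y _ hxy
    show c - K * y ≤ c - K * x
    have := mul_le_mul_of_nonneg_left hxy hK0
    linarith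
  have hn1 : ∀ t ∈ Set.Icc s₁ s₂, 0 ≤ p.eval t - K * t + c := by
    intro t ht
    have h3 := ha1 ht ⟨h12, le_rfl⟩ ht.2
    have h4 : 0 ≤ p.eval s₂ - K * s₂ + c := by linarith
    exact h4.trans h3
  have hn2 : ∀ t ∈ Set.Icc s₁ s₂, 0 ≤ c - K * t := by
    intro t ht
    have := mul_le_mul_of_nonneg_left ht.2 hK0
    linarith
  have t1 := MPS_anti h1 h12 hcont1 ha1 hn1
  have t2 := MPS_anti h1 h12 hcont2 ha2 hn2
  have t3 := t1.sub t2
  have e1 : (fun t : ℝ => p.eval t) = fun t : ℝ => (p.eval t - K * t + c) - (c - K * t) := by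
    funext t; ring
  have e2 : MPS_S s₁ s₂ (fun t : ℝ => p.eval t) = fun X =>
      MPS_S s₁ s₂ (fun t => p.eval t - K * t + c) X - MPS_S s₁ s₂ (fun t => c - K * t) X := by
    funext X
    rw [← MPS_sub, ← e1]
  have e3 : ∫ t in s₁..s₂, p.eval t / t = (∫ t in s₁..s₂, (p.eval t - K * t + c) / t) -
      ∫ t in s₁..s₂, (c - K * t) / t := by
    rw [← intervalIntegral.integral_sub (MPS_int h1 h12 hcont1.continuousOn)
      (MPS_int h1 h12 hcont2.continuousOn)]
    refine intervalIntegral.integral_congr fun t _ => ?_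
    show p.eval t / t = (p.eval t - K * t + c) / t - (c - K * t) / t
    ring
  rw [e2, e3]
  exact t3

/-- **MPS**: Mertens' theorem for continuous functions. -/
theorem MPS : MPS_stmt := by
  intro s₁ s₂ g h1 h12 hg
  show Tendsto (MPS_S s₁ s₂ g) atTop (𝓝 (∫ t in s₁..s₂, g t / t))
  -- the total mass
  have hone : Tendsto (MPS_S s₁ s₂ (fun _ => 1)) atTop (𝓝 (∫ t in s₁..s₂, 1 / t)) :=
    MPS_anti h1 h12 continuous_const (fun _ _ _ _ _ => le_rfl) fun _ _ => zero_le_one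
  obtain ⟨M, hM⟩ : ∃ M : ℝ, M = |∫ t in s₁..s₂, 1 / t| + 1 := ⟨_, rfl⟩
  have hM0 : 0 < M := by rw [hM]; positivity
  have hI0 : 0 ≤ ∫ t in s₁..s₂, 1 / t :=
    intervalIntegral.integral_nonneg h12 fun t ht => by
      have := lt_of_lt_of_le h1 ht.1
      positivity
  rw [Metric.tendsto_atTop] at hone
  obtain ⟨X₁, hX₁⟩ := hone 1 one_pos
  rw [Metric.tendsto_atTop]
  intro ε hε
  obtain ⟨p, hp⟩ := exists_polynomial_near_of_continuousOn s₁ s₂ g hg (ε / (4 * M)) (by positivity)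
  have ht := MPS_poly h1 h12 p
  rw [Metric.tendsto_atTop] at ht
  obtain ⟨X₂, hX₂⟩ := ht (ε / 4) (by positivity)
  refine ⟨max (max X₁ X₂) 2, fun X hX => ?_⟩
  have b1 : X₁ ≤ X := (le_max_left _ _).trans ((le_max_left _ _).trans hX)
  have b2 : X₂ ≤ X := (le_max_right _ _).trans ((le_max_left _ _).trans hX)
  have b3 : 2 ≤ X := (le_max_right _ _).trans hX
  have hmass := hX₁ X b1
  have hpoly := hX₂ X b2
  rw [Real.dist_eq] at hmass hpoly ⊢
  have hmass' : MPS_S s₁ s₂ (fun _ => 1) X ≤ M := by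
    have h3 := (abs_lt.1 hmass).2
    have h4 := le_abs_self (∫ t in s₁..s₂, 1 / t)
    rw [hM]
    linarith
  -- the difference of the sums
  have hd1 : |MPS_S s₁ s₂ g X - MPS_S s₁ s₂ (fun t => p.eval t) X| ≤ ε / 4 := by
    rw [← MPS_sub]
    have h3 : |MPS_S s₁ s₂ (fun t => g t - p.eval t) X| ≤
        ε / (4 * M) * MPS_S s₁ s₂ (fun _ => 1) X := by
      unfold MPS_S
      rw [mul_sum]
      refine (abs_sum_le_sum_abs _ _).trans (sum_le_sum fun l hl => ?_)
      have h4 := hp _ (MPS_range (by linarith) hl)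
      rw [abs_div, Nat.abs_cast, abs_sub_comm, mul_one_div]
      exact div_le_div_of_nonneg_right h4.le (Nat.cast_nonneg l)
    calc |MPS_S s₁ s₂ (fun t => g t - p.eval t) X| ≤ ε / (4 * M) * MPS_S s₁ s₂ (fun _ => 1) X := h3
      _ ≤ ε / (4 * M) * M := mul_le_mul_of_nonneg_left hmass' (by positivity)
      _ = ε / 4 := by field_simp
  -- the difference of the integrals
  have hd2 : |(∫ t in s₁..s₂, p.eval t / t) - ∫ t in s₁..s₂, g t / t| ≤ ε / 4 := by
    rw [← intervalIntegral.integral_sub (MPS_int h1 h12 p.continuous.continuousOn)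
      (MPS_int h1 h12 hg)]
    have h3 : ‖∫ t in s₁..s₂, (p.eval t / t - g t / t)‖ ≤
        ∫ t in s₁..s₂, ε / (4 * M) * (1 / t) := by
      refine intervalIntegral.norm_integral_le_of_norm_le h12 ?_ ?_
      · refine Eventually.of_forall fun t ht => ?_
        have ht' : t ∈ Set.Icc s₁ s₂ := ⟨ht.1.le, ht.2⟩
        have ht0 : 0 < t := lt_of_lt_of_le h1 ht'.1
        rw [← sub_div, norm_div, Real.norm_eq_abs, Real.norm_eq_abs, abs_of_pos ht0, mul_one_div]
        exact div_le_div_of_nonneg_right (hp t ht').le ht0.le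
      · exact (MPS_int h1 h12 (g := fun _ => 1) continuousOn_const).const_mul _
    rw [Real.norm_eq_abs] at h3
    refine h3.trans ?_
    rw [intervalIntegral.integral_const_mul]
    have h4 : ∫ t in s₁..s₂, 1 / t ≤ M := by
      rw [hM]
      linarith [le_abs_self (∫ t in s₁..s₂, 1 / t)]
    calc ε / (4 * M) * ∫ t in s₁..s₂, 1 / t ≤ ε / (4 * M) * M :=
          mul_le_mul_of_nonneg_left h4 (by positivity)
      _ = ε / 4 := by field_simp
  have e : MPS_S s₁ s₂ g X - ∫ t in s₁..s₂, g t / t =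
      (MPS_S s₁ s₂ g X - MPS_S s₁ s₂ (fun t => p.eval t) X) +
      (MPS_S s₁ s₂ (fun t => p.eval t) X - ∫ t in s₁..s₂, p.eval t / t) +
      ((∫ t in s₁..s₂, p.eval t / t) - ∫ t in s₁..s₂, g t / t) := by ring
  rw [e]
  calc _ ≤ |MPS_S s₁ s₂ g X - MPS_S s₁ s₂ (fun t => p.eval t) X| +
        |MPS_S s₁ s₂ (fun t => p.eval t) X - ∫ t in s₁..s₂, p.eval t / t| +
        |(∫ t in s₁..s₂, p.eval t / t) - ∫ t in s₁..s₂, g t / t| := abs_add_three _ _ _
    _ < ε := by linarith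

end Pool.Agent.PT
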